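import Mathlib

/-!
# MP_97b8d2_co, Q1: excluding an induced minor does not bound the sphere dimension

If `H` is not a split graph, or has three pairwise nonadjacent vertices, then the class of graphs
without induced minor `H` contains graphs of arbitrarily large sphere dimension. The reason: the
split graphs (and likewise the co-bipartite graphs) are closed under induced minors, and contain
graphs in which all subsets of a set of `m` vertices are traces of neighbourhoods, while only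
polynomially many subsets are traces when the graph has bounded sphere dimension.
-/

namespace Pool.Agent.Results.MP_97b8d2_co.UnboundedSphereDimension

open Finset

/-- `H` is an induced minor of `G`: disjoint connected (in particular nonempty) branch sets, with
edges between two of them exactly when the two vertices of `H` are adjacent. -/
def IsInducedMinor {W V : Type} (H : SimpleGraph W) (G : SimpleGraph V) : Prop :=
  ∃ B : W → Set V, (∀ w, (G.induce (B w)).Connected) ∧
    (∀ w w', w ≠ w' → Disjoint (B w) (B w')) ∧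
    ∀ w w', w ≠ w' → (H.Adj w w' ↔ ∃ x ∈ B w, ∃ y ∈ B w', G.Adj x y)

/-- `G` is a `d`-sphere graph: the intersection graph of a family of spheres in `ℝ^d`. -/
def IsSphereGraph (d : ℕ) {V : Type} (G : SimpleGraph V) : Prop :=
  ∃ (c : V → EuclideanSpace ℝ (Fin d)) (r : V → ℝ), (∀ v, 0 < r v) ∧
    ∀ u v, u ≠ v →
      (G.Adj u v ↔ (Metric.sphere (c u) (r u) ∩ Metric.sphere (c v) (r v)).Nonempty)

/-- `G` is a circle graph: the intersection graph of chords of a circle. -/
def IsCircleGraph {V : Type} (G : SimpleGraph V) : Prop :=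
  ∃ a b : V → EuclideanSpace ℝ (Fin 2),
    (∀ v, a v ∈ Metric.sphere 0 1 ∧ b v ∈ Metric.sphere 0 1 ∧ a v ≠ b v) ∧
    ∀ u v, u ≠ v → (G.Adj u v ↔ (segment ℝ (a u) (b u) ∩ segment ℝ (a v) (b v)).Nonempty)

/-- The sphere dimension: `1` for circle graphs, otherwise the least `d ≥ 2` such that `G` is a
`d`-sphere graph (the infimum of the set of all admissible values). -/
noncomputable def sphereDim {V : Type} (G : SimpleGraph V) : ℕ∞ :=
  ⨅ d ∈ {d : ℕ | (d = 1 ∧ IsCircleGraph G) ∨ (2 ≤ d ∧ IsSphereGraph d G)}, (d : ℕ∞)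

/-- Split graphs: the vertex set is the union of a clique and an independent set. -/
def IsSplit {V : Type} (G : SimpleGraph V) : Prop :=
  ∃ s : Set V, G.IsClique s ∧ G.IsIndepSet sᶜ

/-! ### Traces of half spaces -/

section VC

variable {W : Type} [AddCommGroup W] [Module ℝ W] [FiniteDimensional ℝ W]

open Classical in
/-- The traces of half-spaces on a family of points. -/
noncomputable def traces {m : ℕ} (x : Fin m → W) : Finset (Finset (Fin m)) :=
  Finset.univ.filter fun S => ∃ w : Module.Dual ℝ W, ∀ i, i ∈ S ↔ w (x i) ≤ 0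

theorem shatters_card_le {m : ℕ} (x : Fin m → W) (s : Finset (Fin m))
    (hs : (traces x).Shatters s) : s.card ≤ Module.finrank ℝ W := by
  classical
  by_contra hlt
  push Not at hlt
  have hdep : ¬ LinearIndependent ℝ (fun i : s => x i) := by
    intro hli
    have := hli.fintype_card_le_finrank
    simp at this
    omega
  rw [Fintype.not_linearIndependent_iff] at hdep
  obtain ⟨g, hg, i₀, hi₀⟩ := hdep
  -- choose the sign so that some coefficient is positive
  obtain ⟨g', hg', i₁, hi₁⟩ : ∃ g' : s → ℝ, ∑ i, g' i • x i = 0 ∧ ∃ i, 0 < g' i := by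
    rcases lt_or_gt_of_ne hi₀ with h | h
    · refine ⟨fun i => - g i, ?_, i₀, by simpa using h⟩
      simp only [neg_smul, Finset.sum_neg_distrib, hg, neg_zero]
    · exact ⟨g, hg, i₀, h⟩
  -- the subset of the nonpositive coefficients is not a trace
  obtain ⟨u, hu, hsu⟩ := @hs (s.filter fun i => ∀ h : i ∈ s, g' ⟨i, h⟩ ≤ 0) (Finset.filter_subset _ _)
  simp only [traces, mem_filter, mem_univ, true_and] at hu
  obtain ⟨w, hw⟩ := hu
  have hmem : ∀ i : s, (w (x i) ≤ 0 ↔ g' i ≤ 0) := by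
    intro i
    rw [← hw]
    have h1 : (i : Fin m) ∈ s ∩ u ↔ (i : Fin m) ∈ s.filter fun i => ∀ h : i ∈ s, g' ⟨i, h⟩ ≤ 0 := by
      rw [hsu]
    simp only [mem_inter, mem_filter, i.2, true_and] at h1
    rw [h1]
    constructor
    · intro h; exact h trivial
    · intro h _; exact h
  have h0 : ∑ i, g' i * w (x i) = 0 := by
    have := congrArg w hg'
    simpa [map_sum] using this
  have hpos : 0 < ∑ i, g' i * w (x i) := by
    refine Finset.sum_pos' (fun i _ => ?_) ⟨i₁, mem_univ _, ?_⟩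
    · by_cases hi : g' i ≤ 0
      · exact mul_nonneg_of_nonpos_of_nonpos hi ((hmem i).2 hi)
      · have : ¬ w (x i) ≤ 0 := fun h => hi ((hmem i).1 h)
        push Not at hi this
        positivity
    · have : ¬ w (x i₁) ≤ 0 := fun h => absurd ((hmem i₁).1 h) (not_le.2 hi₁)
      push Not at this
      positivity
  exact absurd h0 hpos.ne'

theorem card_traces_le {m : ℕ} (x : Fin m → W) :
    (traces x).card ≤ (m + 1) ^ Module.finrank ℝ W := by
  classical
  have h1 : (traces x).vcDim ≤ Module.finrank ℝ W := by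
    unfold Finset.vcDim
    refine Finset.sup_le fun s hs => ?_
    exact shatters_card_le x s (Finset.mem_shatterer.1 hs)
  have h2 := (Finset.card_le_card_shatterer (traces x)).trans
    (Finset.card_shatterer_le_sum_vcDim (𝒜 := traces x))
  refine h2.trans ?_
  calc ∑ k ∈ Iic (traces x).vcDim, (Fintype.card (Fin m)).choose k
      ≤ ∑ k ∈ Iic (Module.finrank ℝ W), m.choose k := by
        rw [Fintype.card_fin]
        exact Finset.sum_le_sum_of_subset (Finset.Iic_subset_Iic.2 h1)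
    _ = ∑ k ∈ range (Module.finrank ℝ W + 1), m.choose k := by
        congr 1
        ext k; simp
    _ ≤ ∑ k ∈ range (Module.finrank ℝ W + 1), (Module.finrank ℝ W).choose k * m ^ k := by
        refine Finset.sum_le_sum fun k hk => ?_
        have hk' : k ≤ Module.finrank ℝ W := by simpa [Nat.lt_succ_iff] using hk
        calc m.choose k ≤ m ^ k := Nat.choose_le_pow m k
          _ = 1 * m ^ k := (one_mul _).symm
          _ ≤ _ := Nat.mul_le_mul_right _ (Nat.choose_pos hk')
    _ = (m + 1) ^ Module.finrank ℝ W := by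
        rw [add_pow]
        refine Finset.sum_congr rfl fun k _ => ?_
        simp [mul_comm]

/-- If all subsets of a set of `m` points are cut out by boolean combinations of four half-spaces,
then `m` is bounded. -/
theorem pow_le {m : ℕ} (x y : Fin m → W)
    (h : ∀ S : Finset (Fin m), ∃ w w' : Module.Dual ℝ W, ∀ i, i ∈ S ↔
      ((w (x i) ≤ 0 ∨ w (y i) ≤ 0) ∧ (w' (x i) ≤ 0 ∨ w' (y i) ≤ 0))) :
    2 ^ m ≤ (m + 1) ^ (4 * Module.finrank ℝ W) := by
  classical
  choose w w' hw using h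
  let cut : (Fin m → W) → Module.Dual ℝ W → Finset (Fin m) := fun z f =>
    Finset.univ.filter fun i => f (z i) ≤ 0
  have hcut : ∀ z f, cut z f ∈ traces z := by
    intro z f
    simp only [traces, mem_filter, mem_univ, true_and]
    exact ⟨f, fun i => by simp [cut]⟩
  let F : Finset (Fin m) → Finset (Fin m) × Finset (Fin m) × Finset (Fin m) × Finset (Fin m) :=
    fun S => (cut x (w S), cut y (w S), cut x (w' S), cut y (w' S))
  have hinj : Function.Injective F := by
    intro S T hST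
    simp only [F, Prod.mk.injEq] at hST
    obtain ⟨h1, h2, h3, h4⟩ := hST
    ext i
    rw [hw S i, hw T i]
    have e1 : w S (x i) ≤ 0 ↔ w T (x i) ≤ 0 := by
      have := congrArg (fun A => i ∈ A) h1
      simpa [cut] using this
    have e2 : w S (y i) ≤ 0 ↔ w T (y i) ≤ 0 := by
      have := congrArg (fun A => i ∈ A) h2
      simpa [cut] using this
    have e3 : w' S (x i) ≤ 0 ↔ w' T (x i) ≤ 0 := by
      have := congrArg (fun A => i ∈ A) h3
      simpa [cut] using this
    have e4 : w' S (y i) ≤ 0 ↔ w' T (y i) ≤ 0 := by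
      have := congrArg (fun A => i ∈ A) h4
      simpa [cut] using this
    rw [e1, e2, e3, e4]
  have hmap : ∀ S ∈ (Finset.univ : Finset (Finset (Fin m))),
      F S ∈ traces x ×ˢ (traces y ×ˢ (traces x ×ˢ traces y)) := by
    intro S _
    simp only [mem_product, F]
    exact ⟨hcut _ _, hcut _ _, hcut _ _, hcut _ _⟩
  have hcard := Finset.card_le_card_of_injOn F hmap hinj.injOn
  rw [Finset.card_univ, Fintype.card_finset, Fintype.card_fin, card_product, card_product,
    card_product] at hcard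
  refine hcard.trans ?_
  have hx := card_traces_le x
  have hy := card_traces_le y
  calc (traces x).card * ((traces y).card * ((traces x).card * (traces y).card))
      ≤ (m + 1) ^ Module.finrank ℝ W * ((m + 1) ^ Module.finrank ℝ W *
        ((m + 1) ^ Module.finrank ℝ W * (m + 1) ^ Module.finrank ℝ W)) := by gcongr
    _ = (m + 1) ^ (4 * Module.finrank ℝ W) := by ring

end VC

/-! ### Spheres -/

theorem sphere_inter_iff {d : ℕ} (hd : 2 ≤ d) (a b : EuclideanSpace ℝ (Fin d)) {r s : ℝ}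
    (hr : 0 < r) (hs : 0 < s) :
    (Metric.sphere a r ∩ Metric.sphere b s).Nonempty ↔
      (dist a b ≤ r + s ∧ |r - s| ≤ dist a b) := by
  constructor
  · rintro ⟨x, hx1, hx2⟩
    rw [Metric.mem_sphere] at hx1 hx2
    constructor
    · calc dist a b ≤ dist a x + dist x b := dist_triangle _ _ _
        _ = r + s := by rw [dist_comm a x, hx1, hx2]
    · rw [abs_le]
      have h1 := dist_triangle x b a
      have h2 := dist_triangle x a b
      rw [dist_comm b a] at h1
      constructor <;> linarith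
  · rintro ⟨h1, h2⟩
    have hrank : 1 < Module.rank ℝ (EuclideanSpace ℝ (Fin d)) := by
      rw [← Module.finrank_eq_rank, finrank_euclideanSpace_fin]
      exact_mod_cast hd
    by_cases hab : a = b
    · subst hab
      rw [dist_self] at h2
      have : r = s := by
        have := abs_nonpos_iff.1 h2
        linarith
      subst this
      rw [Set.inter_self]
      exact (isConnected_sphere hrank a hr.le).nonempty
    · have hD : 0 < dist a b := dist_pos.2 hab
      have hconn := isPreconnected_sphere hrank a r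
      set D := dist a b with hDdef
      have hnorm : ‖b - a‖ = D := by rw [hDdef, dist_comm, dist_eq_norm]
      have hp : a + (r / D) • (b - a) ∈ Metric.sphere a r := by
        rw [mem_sphere_iff_norm, add_sub_cancel_left, norm_smul, hnorm, Real.norm_eq_abs,
          abs_of_pos (by positivity)]
        field_simp
      have hq : a - (r / D) • (b - a) ∈ Metric.sphere a r := by
        rw [mem_sphere_iff_norm, sub_sub_cancel_left, norm_neg, norm_smul, hnorm,
          Real.norm_eq_abs, abs_of_pos (by positivity)]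
        field_simp
      have hdp : dist (a + (r / D) • (b - a)) b = |D - r| := by
        have : a + (r / D) • (b - a) - b = (-(1 - r / D)) • (b - a) := by
          module
        rw [dist_eq_norm, this, norm_smul, hnorm, Real.norm_eq_abs, abs_neg,
          ← abs_of_pos hD, ← abs_mul, abs_of_pos hD]
        congr 1
        field_simp
      have hdq : dist (a - (r / D) • (b - a)) b = D + r := by
        have : a - (r / D) • (b - a) - b = (-(1 + r / D)) • (b - a) := by
          module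
        rw [dist_eq_norm, this, norm_smul, hnorm, Real.norm_eq_abs, abs_neg,
          abs_of_pos (by positivity)]
        field_simp
      have hmem : s ∈ Set.Icc (dist (a + (r / D) • (b - a)) b)
          (dist (a - (r / D) • (b - a)) b) := by
        rw [hdp, hdq]
        rw [abs_le] at h2
        refine ⟨?_, by linarith⟩
        rw [abs_le]
        constructor <;> linarith
      obtain ⟨x, hx, hxs⟩ := hconn.intermediate_value hp hq
        (f := fun x => dist x b) (by fun_prop) hmem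
      exact ⟨x, hx, hxs⟩

/-- In a `d`-sphere graph all subsets of `m` vertices are traces of neighbourhoods only if `m` is
bounded. -/
theorem sphere_bound {d m : ℕ} (hd : 2 ≤ d) {V : Type} (G : SimpleGraph V)
    (hG : IsSphereGraph d G) (p : Fin m → V) (q : Finset (Fin m) → V)
    (hpq : ∀ i S, p i ≠ q S) (hadj : ∀ i S, G.Adj (p i) (q S) ↔ i ∈ S) :
    2 ^ m ≤ (m + 1) ^ (4 * (d + 3)) := by
  obtain ⟨c, r, hr, hcr⟩ := hG
  let W : Type := ℝ × ℝ × ℝ × EuclideanSpace ℝ (Fin d)
  have hfin : Module.finrank ℝ (ℝ × ℝ × ℝ × EuclideanSpace ℝ (Fin d)) = d + 3 := by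
    rw [Module.finrank_prod, Module.finrank_prod, Module.finrank_prod]
    simp only [Module.finrank_self, finrank_euclideanSpace_fin]
    ring
  rw [← hfin]
  let x : Fin m → ℝ × ℝ × ℝ × EuclideanSpace ℝ (Fin d) := fun i =>
    (1, r (p i), ‖c (p i)‖ ^ 2 - r (p i) ^ 2, c (p i))
  refine pow_le x x fun S => ?_
  let A := ‖c (q S)‖ ^ 2 - r (q S) ^ 2
  let e1 : (ℝ × ℝ × ℝ × EuclideanSpace ℝ (Fin d)) →ₗ[ℝ] ℝ := LinearMap.fst ℝ ℝ _
  let e2 : (ℝ × ℝ × ℝ × EuclideanSpace ℝ (Fin d)) →ₗ[ℝ] ℝ :=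
    (LinearMap.fst ℝ ℝ _).comp (LinearMap.snd ℝ ℝ _)
  let e3 : (ℝ × ℝ × ℝ × EuclideanSpace ℝ (Fin d)) →ₗ[ℝ] ℝ :=
    (LinearMap.fst ℝ ℝ _).comp ((LinearMap.snd ℝ ℝ _).comp (LinearMap.snd ℝ ℝ _))
  let e4 : (ℝ × ℝ × ℝ × EuclideanSpace ℝ (Fin d)) →ₗ[ℝ] ℝ :=
    (innerSL ℝ (c (q S))).toLinearMap.comp
      ((LinearMap.snd ℝ ℝ _).comp ((LinearMap.snd ℝ ℝ _).comp (LinearMap.snd ℝ ℝ _)))
  refine ⟨A • e1 - (2 * r (q S)) • e2 + e3 - (2 : ℝ) • e4,
    -(A • e1 + (2 * r (q S)) • e2 + e3 - (2 : ℝ) • e4), fun i => ?_⟩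
  rw [← hadj i S, hcr _ _ (hpq i S), sphere_inter_iff hd _ _ (hr _) (hr _)]
  have hns : dist (c (p i)) (c (q S)) ^ 2 =
      ‖c (p i)‖ ^ 2 - 2 * inner ℝ (c (q S)) (c (p i)) + ‖c (q S)‖ ^ 2 := by
    rw [dist_eq_norm, norm_sub_sq_real, real_inner_comm]
  have hD : 0 ≤ dist (c (p i)) (c (q S)) := dist_nonneg
  have hrp := hr (p i)
  have hrq := hr (q S)
  have E1 : (A • e1 - (2 * r (q S)) • e2 + e3 - (2 : ℝ) • e4) (x i) =
      dist (c (p i)) (c (q S)) ^ 2 - (r (p i) + r (q S)) ^ 2 := by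
    rw [hns]
    simp only [LinearMap.sub_apply, LinearMap.add_apply, LinearMap.smul_apply, smul_eq_mul,
      LinearMap.comp_apply, LinearMap.fst_apply, LinearMap.snd_apply, x, e1, e2, e3, e4, A,
      ContinuousLinearMap.coe_coe, innerSL_apply_apply]
    ring
  have E2 : (-(A • e1 + (2 * r (q S)) • e2 + e3 - (2 : ℝ) • e4)) (x i) =
      (r (p i) - r (q S)) ^ 2 - dist (c (p i)) (c (q S)) ^ 2 := by
    rw [hns]
    simp only [LinearMap.neg_apply, LinearMap.sub_apply, LinearMap.add_apply,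
      LinearMap.smul_apply, smul_eq_mul,
      LinearMap.comp_apply, LinearMap.fst_apply, LinearMap.snd_apply, x, e1, e2, e3, e4, A,
      ContinuousLinearMap.coe_coe, innerSL_apply_apply]
    ring
  rw [E1, E2, or_self, or_self]
  have F1 : dist (c (p i)) (c (q S)) ≤ r (p i) + r (q S) ↔
      dist (c (p i)) (c (q S)) ^ 2 - (r (p i) + r (q S)) ^ 2 ≤ 0 := by
    rw [sub_nonpos, sq_le_sq₀ hD (by positivity)]
  have F2 : |r (p i) - r (q S)| ≤ dist (c (p i)) (c (q S)) ↔
      (r (p i) - r (q S)) ^ 2 - dist (c (p i)) (c (q S)) ^ 2 ≤ 0 := by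
    rw [sub_nonpos, ← sq_abs (r (p i) - r (q S)), sq_le_sq₀ (abs_nonneg _) hD]
  rw [F1, F2]

/-! ### Chords -/

/-- The determinant of `q - p` and `z - t p`, linear in `(t, z)`. -/
noncomputable def chordFun (p q : EuclideanSpace ℝ (Fin 2)) :
    (ℝ × EuclideanSpace ℝ (Fin 2)) →ₗ[ℝ] ℝ :=
  (q 0 - p 0) • ((EuclideanSpace.proj (𝕜 := ℝ) (1 : Fin 2)).toLinearMap.comp (LinearMap.snd ℝ ℝ _)
      - p 1 • LinearMap.fst ℝ ℝ _)
    - (q 1 - p 1) • ((EuclideanSpace.proj (𝕜 := ℝ) (0 : Fin 2)).toLinearMap.comp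
      (LinearMap.snd ℝ ℝ _) - p 0 • LinearMap.fst ℝ ℝ _)

theorem chordFun_apply (p q z : EuclideanSpace ℝ (Fin 2)) :
    chordFun p q (1, z) = (q 0 - p 0) * (z 1 - p 1) - (q 1 - p 1) * (z 0 - p 0) := by
  simp [chordFun]

theorem mem_unit {z : EuclideanSpace ℝ (Fin 2)} (hz : z ∈ Metric.sphere 0 1) :
    z 0 ^ 2 + z 1 ^ 2 = 1 := by
  rw [mem_sphere_zero_iff_norm, EuclideanSpace.norm_eq, Real.sqrt_eq_one, Fin.sum_univ_two] at hz
  simpa using hz

theorem chord_param {p0 p1 q0 q1 z0 z1 : ℝ} (hp : p0 ^ 2 + p1 ^ 2 = 1) (hq : q0 ^ 2 + q1 ^ 2 = 1)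
    (hN : 0 < (q0 - p0) ^ 2 + (q1 - p1) ^ 2)
    (hline : (q0 - p0) * (z1 - p1) - (q1 - p1) * (z0 - p0) = 0) (hdisc : z0 ^ 2 + z1 ^ 2 ≤ 1) :
    ∃ t : ℝ, 0 ≤ t ∧ t ≤ 1 ∧ z0 - p0 = t * (q0 - p0) ∧ z1 - p1 = t * (q1 - p1) := by
  obtain ⟨t, htN⟩ : ∃ t : ℝ, t * ((q0 - p0) ^ 2 + (q1 - p1) ^ 2) =
      (q0 - p0) * (z0 - p0) + (q1 - p1) * (z1 - p1) :=
    ⟨((q0 - p0) * (z0 - p0) + (q1 - p1) * (z1 - p1)) / ((q0 - p0) ^ 2 + (q1 - p1) ^ 2), by
      field_simp⟩
  have hx0 : z0 - p0 = t * (q0 - p0) := by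
    have : ((q0 - p0) ^ 2 + (q1 - p1) ^ 2) * (z0 - p0 - t * (q0 - p0)) = 0 := by
      linear_combination (-(q0 - p0)) * htN - (q1 - p1) * hline
    have h5 := (mul_eq_zero.1 this).resolve_left hN.ne'
    linarith
  have hx1 : z1 - p1 = t * (q1 - p1) := by
    have : ((q0 - p0) ^ 2 + (q1 - p1) ^ 2) * (z1 - p1 - t * (q1 - p1)) = 0 := by
      linear_combination (-(q1 - p1)) * htN + (q0 - p0) * hline
    have h5 := (mul_eq_zero.1 this).resolve_left hN.ne'
    linarith
  have hquad : t * (1 - t) * ((q0 - p0) ^ 2 + (q1 - p1) ^ 2) = 1 - (z0 ^ 2 + z1 ^ 2) := by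
    have e0 : z0 = p0 + t * (q0 - p0) := by linarith
    have e1 : z1 = p1 + t * (q1 - p1) := by linarith
    rw [e0, e1]
    linear_combination (1 - t) * hp + t * hq
  have ht01 : 0 ≤ t * (1 - t) := by
    by_contra hneg
    push Not at hneg
    have := mul_neg_of_neg_of_pos hneg hN
    linarith
  exact ⟨t, by nlinarith, by nlinarith, hx0, hx1⟩

theorem chord_iff {a b p q : EuclideanSpace ℝ (Fin 2)} (ha : a ∈ Metric.sphere 0 1)
    (hb : b ∈ Metric.sphere 0 1) (hp : p ∈ Metric.sphere 0 1) (hq : q ∈ Metric.sphere 0 1)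
    (hpq : p ≠ q) :
    (segment ℝ a b ∩ segment ℝ p q).Nonempty ↔
      ((chordFun p q (1, a) ≤ 0 ∨ chordFun p q (1, b) ≤ 0) ∧
        ((-chordFun p q) (1, a) ≤ 0 ∨ (-chordFun p q) (1, b) ≤ 0)) := by
  have ha' := mem_unit ha
  have hb' := mem_unit hb
  have hp' := mem_unit hp
  have hq' := mem_unit hq
  simp only [LinearMap.neg_apply, Left.neg_nonpos_iff, chordFun_apply]
  set A := (q 0 - p 0) * (a 1 - p 1) - (q 1 - p 1) * (a 0 - p 0) with hA
  set B := (q 0 - p 0) * (b 1 - p 1) - (q 1 - p 1) * (b 0 - p 0) with hB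
  have hN : 0 < (q 0 - p 0) ^ 2 + (q 1 - p 1) ^ 2 := by
    by_contra hle
    push Not at hle
    have h0 : (q 0 - p 0) ^ 2 = 0 := by nlinarith [sq_nonneg (q 0 - p 0), sq_nonneg (q 1 - p 1)]
    have h1 : (q 1 - p 1) ^ 2 = 0 := by nlinarith [sq_nonneg (q 0 - p 0), sq_nonneg (q 1 - p 1)]
    apply hpq
    ext i
    fin_cases i
    · have := pow_eq_zero_iff (two_ne_zero) |>.1 h0
      simp; linarith
    · have := pow_eq_zero_iff (two_ne_zero) |>.1 h1
      simp; linarith
  constructor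
  · rintro ⟨z, hz1, hz2⟩
    rw [segment_eq_image] at hz1 hz2
    obtain ⟨s, ⟨hs0, hs1⟩, rfl⟩ := hz1
    obtain ⟨t, _, ht⟩ := hz2
    have h0 := congrArg (fun v => v 0) ht
    have h1 := congrArg (fun v => v 1) ht
    simp at h0 h1
    have hkey : (1 - s) * A + s * B = 0 := by
      rw [hA, hB]
      linear_combination (q 1 - p 1) * h0 - (q 0 - p 0) * h1
    constructor
    · by_contra hcon
      push Not at hcon
      obtain ⟨h2, h3⟩ := hcon
      rcases eq_or_lt_of_le hs0 with h | h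
      · rw [← h] at hkey; simp at hkey; linarith
      · nlinarith [mul_pos h h3, mul_nonneg (sub_nonneg.2 hs1) h2.le]
    · by_contra hcon
      push Not at hcon
      obtain ⟨h2, h3⟩ := hcon
      rcases eq_or_lt_of_le hs0 with h | h
      · rw [← h] at hkey; simp at hkey; linarith
      · nlinarith [mul_neg_of_pos_of_neg h h3, mul_nonneg (sub_nonneg.2 hs1) (neg_nonneg.2 h2.le)]
  · rintro ⟨h1, h2⟩
    -- a point of the segment on the line
    obtain ⟨s, hs0, hs1, hs⟩ : ∃ s : ℝ, 0 ≤ s ∧ s ≤ 1 ∧ (1 - s) * A + s * B = 0 := by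
      by_cases hAB : A = B
      · have : A = 0 := by
          rcases h1 with h | h <;> rcases h2 with h' | h' <;> linarith
        exact ⟨0, le_refl _, zero_le_one, by rw [← hAB, this]; ring⟩
      · rcases lt_or_gt_of_ne hAB with h | h
        · have hA0 : A ≤ 0 := by rcases h1 with h' | h' <;> linarith
          have hB0 : 0 ≤ B := by rcases h2 with h' | h' <;> linarith
          have hpos : 0 < B - A := by linarith
          refine ⟨-A / (B - A), div_nonneg (by linarith) hpos.le,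
            (div_le_one hpos).2 (by linarith), ?_⟩
          field_simp
          ring
        · have hB0 : B ≤ 0 := by rcases h1 with h' | h' <;> linarith
          have hA0 : 0 ≤ A := by rcases h2 with h' | h' <;> linarith
          have hpos : 0 < A - B := by linarith
          refine ⟨A / (A - B), div_nonneg (by linarith) hpos.le,
            (div_le_one hpos).2 (by linarith), ?_⟩
          field_simp
          ring
    -- coordinates of the point
    set z0 := (1 - s) * a 0 + s * b 0 with hz0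
    set z1 := (1 - s) * a 1 + s * b 1 with hz1
    have hline : (q 0 - p 0) * (z1 - p 1) - (q 1 - p 1) * (z0 - p 0) = 0 := by
      rw [hz0, hz1]
      rw [hA, hB] at hs
      linear_combination hs
    have hdisc : z0 ^ 2 + z1 ^ 2 ≤ 1 := by
      have : 1 - (z0 ^ 2 + z1 ^ 2) = s * (1 - s) * ((a 0 - b 0) ^ 2 + (a 1 - b 1) ^ 2) := by
        rw [hz0, hz1]
        linear_combination (1 - s) * ha' * (-1) + s * hb' * (-1) + 0 * hs
      have h3 : 0 ≤ s * (1 - s) * ((a 0 - b 0) ^ 2 + (a 1 - b 1) ^ 2) :=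
        mul_nonneg (mul_nonneg hs0 (by linarith)) (by positivity)
      linarith
    obtain ⟨t, ht0, ht1, hx0, hx1⟩ := chord_param hp' hq' hN hline hdisc
    refine ⟨(1 - s) • a + s • b, ?_, ?_⟩
    · exact ⟨1 - s, s, by linarith, hs0, by ring, rfl⟩
    · refine ⟨1 - t, t, by linarith, ht0, by ring, ?_⟩
      ext i
      fin_cases i
      · simp
        linarith
      · simp
        linarith

/-- In a circle graph all subsets of `m` vertices are traces of neighbourhoods only if `m` is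
bounded. -/
theorem circle_bound {m : ℕ} {V : Type} (G : SimpleGraph V)
    (hG : IsCircleGraph G) (p : Fin m → V) (q : Finset (Fin m) → V)
    (hpq : ∀ i S, p i ≠ q S) (hadj : ∀ i S, G.Adj (p i) (q S) ↔ i ∈ S) :
    2 ^ m ≤ (m + 1) ^ (4 * 3) := by
  obtain ⟨a, b, hab, hG⟩ := hG
  have hfin : Module.finrank ℝ (ℝ × EuclideanSpace ℝ (Fin 2)) = 3 := by
    rw [Module.finrank_prod]
    simp
  rw [← hfin]
  refine pow_le (fun i => ((1 : ℝ), a (p i))) (fun i => ((1 : ℝ), b (p i))) fun S => ?_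
  refine ⟨chordFun (a (q S)) (b (q S)), -chordFun (a (q S)) (b (q S)), fun i => ?_⟩
  rw [← hadj i S, hG _ _ (hpq i S)]
  exact chord_iff (hab _).1 (hab _).2.1 (hab _).1 (hab _).2.1 (hab _).2.2

/-! ### The graphs -/

theorem exists_large (c : ℕ) : ∃ m : ℕ, (m + 1) ^ c < 2 ^ m := by
  have hk : c * (2 * c + 4) + 1 < 2 ^ (2 * c + 4) := by
    have h1 : c + 1 ≤ 2 ^ c := Nat.lt_two_pow_self
    have h2 : 2 ^ (2 * c + 4) = 16 * (2 ^ c * 2 ^ c) := by
      rw [pow_add, two_mul, pow_add]; ring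
    rw [h2]
    nlinarith [Nat.mul_le_mul h1 h1]
  refine ⟨2 ^ (2 * c + 4) - 1, ?_⟩
  have hpos : 0 < 2 ^ (2 * c + 4) := by positivity
  rw [Nat.sub_add_cancel hpos, ← pow_mul]
  apply Nat.pow_lt_pow_right (by norm_num)
  rw [mul_comm]
  omega

/-- The vertices `inl i` form a clique, `inl i` and `inr S` are adjacent when `i ∈ S`, and the
vertices `inr S` form a clique or an independent set, as `b` says. -/
def tracesGraph (m : ℕ) (b : Prop) : SimpleGraph (Fin m ⊕ Finset (Fin m)) where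
  Adj x y := match x, y with
    | Sum.inl i, Sum.inl j => i ≠ j
    | Sum.inl i, Sum.inr S => i ∈ S
    | Sum.inr S, Sum.inl i => i ∈ S
    | Sum.inr S, Sum.inr T => b ∧ S ≠ T
  symm := by
    constructor
    rintro (i | S) (j | T) h
    · exact h.symm
    · exact h
    · exact h
    · exact ⟨h.1, h.2.symm⟩
  loopless := by
    constructor
    rintro (i | S) h
    · exact h rfl
    · exact h.2 rfl

theorem isSplit_tracesGraph (m : ℕ) : IsSplit (tracesGraph m False) := by
  refine ⟨Set.range Sum.inl, ?_, ?_⟩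
  · rintro _ ⟨i, rfl⟩ _ ⟨j, rfl⟩ hij
    exact fun h => hij (by rw [h])
  · rintro (i | S) hx (j | T) hy hne h
    · exact hx ⟨i, rfl⟩
    · exact hx ⟨i, rfl⟩
    · exact hy ⟨j, rfl⟩
    · exact h.1

theorem IsInducedMinor.isSplit {W V : Type} {H : SimpleGraph W} {G : SimpleGraph V}
    (h : IsInducedMinor H G) (hG : IsSplit G) : IsSplit H := by
  obtain ⟨B, hconn, hdisj, hadj⟩ := h
  obtain ⟨s, hs, hs'⟩ := hG
  refine ⟨{w | (B w ∩ s).Nonempty}, ?_, ?_⟩
  · rintro w ⟨x, hx, hxs⟩ w' ⟨y, hy, hys⟩ hne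
    rw [hadj w w' hne]
    refine ⟨x, hx, y, hy, hs hxs hys ?_⟩
    rintro rfl
    exact Set.disjoint_left.1 (hdisj w w' hne) hx hy
  · intro w hw w' hw' hne hH
    rw [hadj w w' hne] at hH
    obtain ⟨x, hx, y, hy, hxy⟩ := hH
    have hxs : x ∈ sᶜ := fun h => hw ⟨x, hx, h⟩
    have hys : y ∈ sᶜ := fun h => hw' ⟨y, hy, h⟩
    exact hs' hxs hys hxy.ne hxy

theorem no_coclique (m : ℕ) {W : Type} {H : SimpleGraph W} {x y z : W} (hxy : x ≠ y)
    (hyz : y ≠ z) (hxz : x ≠ z) (h1 : ¬ H.Adj x y) (h2 : ¬ H.Adj y z) (h3 : ¬ H.Adj x z) :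
    ¬ IsInducedMinor H (tracesGraph m True) := by
  rintro ⟨B, hconn, hdisj, hadj⟩
  have hne : ∀ w, ∃ v, v ∈ B w := fun w => by
    obtain ⟨⟨v, hv⟩⟩ := (hconn w).nonempty
    exact ⟨v, hv⟩
  obtain ⟨u, hu⟩ := hne x
  obtain ⟨v, hv⟩ := hne y
  obtain ⟨w, hw⟩ := hne z
  have huv : u ≠ v := by rintro rfl; exact Set.disjoint_left.1 (hdisj x y hxy) hu hv
  have hvw : v ≠ w := by rintro rfl; exact Set.disjoint_left.1 (hdisj y z hyz) hv hw
  have huw : u ≠ w := by rintro rfl; exact Set.disjoint_left.1 (hdisj x z hxz) hu hw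
  have k1 : ¬ (tracesGraph m True).Adj u v := fun h => h1 ((hadj x y hxy).2 ⟨u, hu, v, hv, h⟩)
  have k2 : ¬ (tracesGraph m True).Adj v w := fun h => h2 ((hadj y z hyz).2 ⟨v, hv, w, hw, h⟩)
  have k3 : ¬ (tracesGraph m True).Adj u w := fun h => h3 ((hadj x z hxz).2 ⟨u, hu, w, hw, h⟩)
  rcases u with i | S <;> rcases v with j | T <;> rcases w with k | R
  all_goals simp only [tracesGraph, not_not, true_and] at k1 k2 k3
  all_goals first
    | exact huv (by rw [k1])
    | exact hvw (by rw [k2])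
    | exact huw (by rw [k3])

theorem lt_sphereDim (D m : ℕ) (hm : (m + 1) ^ (4 * (D + 3)) < 2 ^ m) (b : Prop) :
    (D : ℕ∞) < sphereDim (tracesGraph m b) := by
  have hlt : (D : ℕ∞) < ((D + 1 : ℕ) : ℕ∞) := Nat.cast_lt.2 (Nat.lt_succ_self D)
  refine lt_of_lt_of_le hlt (le_iInf₂ fun d hd => Nat.cast_le.2 ?_)
  by_contra hcon
  push Not at hcon
  have hdD : d ≤ D := by omega
  have hne : ∀ (i : Fin m) (S : Finset (Fin m)),
      (Sum.inl i : Fin m ⊕ Finset (Fin m)) ≠ Sum.inr S := fun i S => by simp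
  rcases hd with ⟨h1, hc⟩ | ⟨h2, hs⟩
  · have := circle_bound (tracesGraph m b) hc Sum.inl Sum.inr hne (fun i S => Iff.rfl)
    have h3 : (m + 1) ^ (4 * 3) ≤ (m + 1) ^ (4 * (D + 3)) :=
      Nat.pow_le_pow_right (Nat.succ_pos m) (by omega)
    omega
  · have := sphere_bound h2 (tracesGraph m b) hs Sum.inl Sum.inr hne (fun i S => Iff.rfl)
    have h3 : (m + 1) ^ (4 * (d + 3)) ≤ (m + 1) ^ (4 * (D + 3)) :=
      Nat.pow_le_pow_right (Nat.succ_pos m) (by omega)
    omega

/-- **Answer to Q1: no.** For every finite graph `H` that is not a split graph or has three pairwise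
nonadjacent vertices, graphs without induced minor `H` have arbitrarily large sphere dimension. -/
theorem result :
    (∀ (W : Type) [Finite W] (H : SimpleGraph W),
      (¬ IsSplit H ∨ ∃ x y z, x ≠ y ∧ y ≠ z ∧ x ≠ z ∧ ¬ H.Adj x y ∧ ¬ H.Adj y z ∧ ¬ H.Adj x z) →
      ∀ D : ℕ, ∃ (V : Type) (_ : Finite V) (G : SimpleGraph V),
        ¬ IsInducedMinor H G ∧ (D : ℕ∞) < sphereDim G) ∧
    ¬ ∀ (W : Type) [Finite W] (H : SimpleGraph W), ∃ D : ℕ,
      ∀ (V : Type) [Finite V] (G : SimpleGraph V), ¬ IsInducedMinor H G → sphereDim G ≤ D := by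
  have main : ∀ (W : Type) [Finite W] (H : SimpleGraph W),
      (¬ IsSplit H ∨ ∃ x y z, x ≠ y ∧ y ≠ z ∧ x ≠ z ∧ ¬ H.Adj x y ∧ ¬ H.Adj y z ∧ ¬ H.Adj x z) →
      ∀ D : ℕ, ∃ (V : Type) (_ : Finite V) (G : SimpleGraph V),
        ¬ IsInducedMinor H G ∧ (D : ℕ∞) < sphereDim G := by
    intro W _ H hH D
    obtain ⟨m, hm⟩ := exists_large (4 * (D + 3))
    rcases hH with hH | ⟨x, y, z, hxy, hyz, hxz, h1, h2, h3⟩
    · exact ⟨_, inferInstance, tracesGraph m False,
        fun h => hH (h.isSplit (isSplit_tracesGraph m)), lt_sphereDim D m hm _⟩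
    · exact ⟨_, inferInstance, tracesGraph m True,
        no_coclique m hxy hyz hxz h1 h2 h3, lt_sphereDim D m hm _⟩
  refine ⟨main, fun hall => ?_⟩
  obtain ⟨D, hD⟩ := hall (Fin 3) ⊥
  obtain ⟨V, _, G, hG, hlt⟩ := main (Fin 3) ⊥ (Or.inr ⟨0, 1, 2, by decide, by decide, by decide,
    fun h => h, fun h => h, fun h => h⟩) D
  exact absurd (hD V G hG) (not_le.2 hlt)

end Pool.Agent.Results.MP_97b8d2_co.UnboundedSphereDimension
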